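import Mathlib
import Pool.Agent.Work.MP_2e8aec_co.Large

/-!
# Antichain partitions of bicliques whose least cover has `2r-1` components

For infinitely many `r` there is an antichain partition of a biclique into `r` bi-equivalence
graphs for which the least number of components in a cover is exactly `2r-1`.
-/

set_option autoImplicit false

namespace Pool.Agent.Results.MP_c6b96b_co.AntichainCovers

open Finset

/-- The `X`-part of the component of colour `i` that contains `u`. -/
def blockX {X Y : Type} {r : ℕ} (G : Fin r → SimpleGraph (X ⊕ Y)) (i : Fin r) (u : X ⊕ Y) :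
    Set X :=
  {x : X | (G i).Reachable u (Sum.inl x)}

/-- The `Y`-part of the component of colour `i` that contains `u`. -/
def blockY {X Y : Type} {r : ℕ} (G : Fin r → SimpleGraph (X ⊕ Y)) (i : Fin r) (u : X ⊕ Y) :
    Set Y :=
  {y : Y | (G i).Reachable u (Sum.inr y)}

/-- The graphs `G i` form an antichain partition of the biclique `[X, Y]` into `r` bi-equivalence
graphs. -/
structure IsAntichainPartition {X Y : Type} {r : ℕ} (G : Fin r → SimpleGraph (X ⊕ Y)) : Prop where
  /-- every `G i` is a subgraph of the biclique -/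
  le : ∀ i, G i ≤ completeBipartiteGraph X Y
  /-- every edge of the biclique lies in exactly one `G i` -/
  part : ∀ x y, ∃! i, (G i).Adj (Sum.inl x) (Sum.inr y)
  /-- every component of `G i` is complete bipartite -/
  biclique : ∀ i x y, (G i).Reachable (Sum.inl x) (Sum.inr y) → (G i).Adj (Sum.inl x) (Sum.inr y)
  /-- every vertex meets every colour -/
  spanning : ∀ i v, ∃ w, (G i).Adj v w
  /-- no block on the side `X` is strictly contained in another one -/
  antichainX : ∀ i j u v, ¬ (blockX G i u ⊂ blockX G j v)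
  /-- no block on the side `Y` is strictly contained in another one -/
  antichainY : ∀ i j u v, ¬ (blockY G i u ⊂ blockY G j v)

/-- The numbers of components in the covers: finite families `F` of components of the graphs `G i`
whose vertex sets have union `X ∪ Y`. -/
def coverSizes {X Y : Type} {r : ℕ} (G : Fin r → SimpleGraph (X ⊕ Y)) : Set ℕ :=
  {t : ℕ | ∃ F : Finset ((i : Fin r) × (G i).ConnectedComponent), F.card = t ∧
    ∀ v : X ⊕ Y, ∃ p ∈ F, v ∈ p.2.supp}

/-- The elementary cover by `2r-1` components. -/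
theorem exists_cover {X Y : Type} {r : ℕ} [Nonempty X] [Nonempty Y]
    {G : Fin r → SimpleGraph (X ⊕ Y)} (hG : IsAntichainPartition G) :
    ∃ F : Finset ((i : Fin r) × (G i).ConnectedComponent), F.card ≤ 2 * r - 1 ∧
      ∀ v : X ⊕ Y, ∃ p ∈ F, v ∈ p.2.supp := by
  classical
  obtain ⟨x₀⟩ := ‹Nonempty X›
  obtain ⟨y₀⟩ := ‹Nonempty Y›
  obtain ⟨i₀, hi₀, -⟩ := hG.part x₀ y₀
  let F₁ : Finset ((i : Fin r) × (G i).ConnectedComponent) :=
    univ.image (fun i => ⟨i, (G i).connectedComponentMk (Sum.inl x₀)⟩)
  let F₂ : Finset ((i : Fin r) × (G i).ConnectedComponent) :=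
    (univ.erase i₀).image (fun i => ⟨i, (G i).connectedComponentMk (Sum.inr y₀)⟩)
  refine ⟨F₁ ∪ F₂, ?_, ?_⟩
  · have h1 : F₁.card ≤ r := by
      refine (card_image_le).trans ?_
      simp
    have h2 : F₂.card ≤ r - 1 := by
      refine (card_image_le).trans ?_
      rw [card_erase_of_mem (mem_univ _)]
      simp
    have h3 := card_union_le F₁ F₂
    have h4 : 0 < r := (Nat.zero_le _).trans_lt i₀.is_lt
    omega
  · rintro (x | y)
    · obtain ⟨i, hi, -⟩ := hG.part x y₀
      by_cases hii : i = i₀
      · subst hii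
        refine ⟨_, mem_union_left _ (mem_image_of_mem _ (mem_univ i)), ?_⟩
        rw [SimpleGraph.ConnectedComponent.mem_supp_iff, SimpleGraph.ConnectedComponent.eq]
        exact hi.reachable.trans hi₀.symm.reachable
      · refine ⟨_, mem_union_right _ (mem_image_of_mem _ (mem_erase.2 ⟨hii, mem_univ _⟩)), ?_⟩
        rw [SimpleGraph.ConnectedComponent.mem_supp_iff, SimpleGraph.ConnectedComponent.eq]
        exact hi.reachable
    · obtain ⟨i, hi, -⟩ := hG.part x₀ y
      refine ⟨_, mem_union_left _ (mem_image_of_mem _ (mem_univ i)), ?_⟩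
      rw [SimpleGraph.ConnectedComponent.mem_supp_iff, SimpleGraph.ConnectedComponent.eq]
      exact hi.symm.reachable

/-- For arbitrarily large `r` there is an antichain partition of a finite biclique into `r`
bi-equivalence graphs such that the least number of components in a cover is `2r-1`. -/
theorem result (r₀ : ℕ) :
    ∃ r : ℕ, r₀ ≤ r ∧ 2 ≤ r ∧ ∃ (X Y : Type) (_ : Finite X) (_ : Finite Y)
      (_ : Nonempty X) (_ : Nonempty Y) (G : Fin r → SimpleGraph (X ⊕ Y)),
      IsAntichainPartition G ∧ IsLeast (coverSizes G) (2 * r - 1) := by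
  classical
  obtain ⟨R, hR₀, hR, X, Y, Ω, iX, iY, iΩ, f, g, nX, nY, hex, hsx, hsy, hax, hay, hH⟩ :=
    Work.MP_2e8aec_co.exists_counterEx_large r₀
  have hK : Fintype.card (Fin R × Fin R) = R * R := by simp
  have hK1 : r₀ ≤ Fintype.card (Fin R × Fin R) := by rw [hK]; nlinarith
  have hK2 : 2 ≤ Fintype.card (Fin R × Fin R) := by rw [hK]; nlinarith
  let e : (Fin R × Fin R) ≃ Fin (Fintype.card (Fin R × Fin R)) := Fintype.equivFin _
  -- the graphs
  let G : Fin (Fintype.card (Fin R × Fin R)) → SimpleGraph (X ⊕ Y) := fun i =>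
    SimpleGraph.fromRel (fun u v => ∃ x y, u = Sum.inl x ∧ v = Sum.inr y ∧
      f x (e.symm i) = g y (e.symm i))
  have hadj : ∀ i x y, (G i).Adj (Sum.inl x) (Sum.inr y) ↔ f x (e.symm i) = g y (e.symm i) := by
    intro i x y
    simp only [G, SimpleGraph.fromRel_adj]
    constructor
    · rintro ⟨-, ⟨x', y', h1, h2, h3⟩ | ⟨x', y', h1, h2, h3⟩⟩
      · obtain rfl := Sum.inl.inj h1
        obtain rfl := Sum.inr.inj h2
        exact h3
      · cases h1
    · intro h
      exact ⟨by simp, Or.inl ⟨x, y, rfl, rfl, h⟩⟩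
  have hll : ∀ i x x', ¬ (G i).Adj (Sum.inl x) (Sum.inl x') := by
    intro i x x'
    simp [G, SimpleGraph.fromRel_adj]
  have hrr : ∀ i y y', ¬ (G i).Adj (Sum.inr y) (Sum.inr y') := by
    intro i y y'
    simp [G, SimpleGraph.fromRel_adj]
  -- the value of a vertex at a colour
  let val : Fin (Fintype.card (Fin R × Fin R)) → X ⊕ Y → Ω :=
    fun i v => Sum.elim (fun a => f a (e.symm i)) (fun b => g b (e.symm i)) v
  have hval : ∀ i u v, (G i).Adj u v → val i u = val i v := by
    rintro i (x | y) (x' | y') h
    · exact absurd h (hll i x x')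
    · exact (hadj i x y').1 h
    · exact ((hadj i x' y).1 h.symm).symm
    · exact absurd h (hrr i y y')
  have hreach1 : ∀ i u v, (G i).Reachable u v → val i u = val i v := by
    intro i u v ⟨p⟩
    induction p with
    | nil => rfl
    | cons hd _ ih => exact (hval i _ _ hd).trans ih
  have hvx : ∀ i u, ∃ x, f x (e.symm i) = val i u := by
    rintro i (x | y)
    · exact ⟨x, rfl⟩
    · exact hsy y (e.symm i)
  have hvy : ∀ i u, ∃ y, g y (e.symm i) = val i u := by
    rintro i (x | y)
    · exact hsx x (e.symm i)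
    · exact ⟨y, rfl⟩
  have hreach2 : ∀ i u v, val i u = val i v → (G i).Reachable u v := by
    intro i u v h
    -- every vertex is joined to any vertex of the other side with the same value
    have hx : ∀ x y, f x (e.symm i) = g y (e.symm i) →
        (G i).Reachable (Sum.inl x) (Sum.inr y) := fun x y hxy => ((hadj i x y).2 hxy).reachable
    obtain ⟨x, hx1⟩ := hvx i u
    obtain ⟨y, hy1⟩ := hvy i u
    have hux : ∀ w, val i w = val i u → (G i).Reachable (Sum.inl x) w := by
      rintro (x' | y') hw
      · exact (hx x y (hx1.trans hy1.symm)).trans (hx x' y (hw.trans hy1.symm)).symm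
      · exact hx x y' (hx1.trans hw.symm)
    exact (hux u rfl).symm.trans (hux v h.symm)
  have hbX : ∀ i u, blockX G i u = {z | f z (e.symm i) = val i u} := by
    intro i u
    ext z
    exact ⟨fun h => (hreach1 i _ _ h).symm, fun h => hreach2 i _ _ h.symm⟩
  have hbY : ∀ i u, blockY G i u = {z | g z (e.symm i) = val i u} := by
    intro i u
    ext z
    exact ⟨fun h => (hreach1 i _ _ h).symm, fun h => hreach2 i _ _ h.symm⟩
  have hG : IsAntichainPartition G := by
    refine ⟨?_, ?_, ?_, ?_, ?_, ?_⟩
    · rintro i (x | y) (x' | y') h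
      · exact absurd h (hll i x x')
      · simp
      · simp
      · exact absurd h (hrr i y y')
    · intro x y
      obtain ⟨k, hk, huk⟩ := hex x y
      refine ⟨e k, ?_, ?_⟩
      · simp only [hadj, Equiv.symm_apply_apply]
        exact hk
      · intro i hi
        simp only [hadj] at hi
        rw [← huk _ hi, Equiv.apply_symm_apply]
    · intro i x y h
      rw [hadj]
      exact hreach1 i _ _ h
    · rintro i (x | y)
      · obtain ⟨y, hy⟩ := hsx x (e.symm i)
        exact ⟨Sum.inr y, (hadj i x y).2 hy.symm⟩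
      · obtain ⟨x, hx⟩ := hsy y (e.symm i)
        exact ⟨Sum.inl x, ((hadj i x y).2 hx).symm⟩
    · intro i j u v h
      rw [hbX, hbX] at h
      obtain ⟨x, hx⟩ := hvx i u
      obtain ⟨x', hx'⟩ := hvx j v
      refine h.2 ?_
      have h1 := hax (e.symm i) (e.symm j) x x' (fun z hz => by
        have h2 : z ∈ {z | f z (e.symm i) = val i u} := hz.trans hx
        have h3 : f z (e.symm j) = val j v := h.1 h2
        rw [h3, hx'])
      intro z hz
      have hz' : f z (e.symm j) = val j v := hz
      exact (h1 z (by rw [hz', hx'])).trans hx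
    · intro i j u v h
      rw [hbY, hbY] at h
      obtain ⟨y, hy⟩ := hvy i u
      obtain ⟨y', hy'⟩ := hvy j v
      refine h.2 ?_
      have h1 := hay (e.symm i) (e.symm j) y y' (fun z hz => by
        have h2 : z ∈ {z | g z (e.symm i) = val i u} := hz.trans hy
        have h3 : g z (e.symm j) = val j v := h.1 h2
        rw [h3, hy'])
      intro z hz
      have hz' : g z (e.symm j) = val j v := hz
      exact (h1 z (by rw [hz', hy'])).trans hy
  have hlow : ∀ F : Finset ((i : Fin (Fintype.card (Fin R × Fin R))) × (G i).ConnectedComponent),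
      (∀ v : X ⊕ Y, ∃ p ∈ F, v ∈ p.2.supp) →
        2 * Fintype.card (Fin R × Fin R) - 1 ≤ F.card := by
    intro F hF
    by_contra hcon
    -- the common value of the vertices of a component
    let cv : ((i : Fin (Fintype.card (Fin R × Fin R))) × (G i).ConnectedComponent) →
        (Fin R × Fin R) × Ω := fun p => (e.symm p.1, val p.1 p.2.exists_rep.choose)
    have hcv : ∀ p : ((i : Fin (Fintype.card (Fin R × Fin R))) × (G i).ConnectedComponent),
        ∀ v ∈ p.2.supp, cv p = (e.symm p.1, val p.1 v) := by
      intro p v hv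
      have h1 : (G p.1).connectedComponentMk p.2.exists_rep.choose = p.2 :=
        p.2.exists_rep.choose_spec
      rw [SimpleGraph.ConnectedComponent.mem_supp_iff, ← h1,
        SimpleGraph.ConnectedComponent.eq] at hv
      simp only [cv]
      rw [hreach1 p.1 _ _ hv]
    have hc1 : (F.image cv).card ≤ F.card := card_image_le
    rcases hH (F.image cv) (by omega) with ⟨x, hx⟩ | ⟨y, hy⟩
    · obtain ⟨p, hp, hv⟩ := hF (Sum.inl x)
      refine hx (e.symm p.1) ?_
      have h1 := mem_image_of_mem cv hp
      rwa [hcv p _ hv] at h1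
    · obtain ⟨p, hp, hv⟩ := hF (Sum.inr y)
      refine hy (e.symm p.1) ?_
      have h1 := mem_image_of_mem cv hp
      rwa [hcv p _ hv] at h1
  refine ⟨Fintype.card (Fin R × Fin R), hK1, hK2, X, Y, inferInstance, inferInstance, nX, nY, G,
    hG, ?_, ?_⟩
  · obtain ⟨F, hFc, hF⟩ := exists_cover hG
    exact ⟨F, le_antisymm hFc (hlow F hF), hF⟩
  · rintro t ⟨F, rfl, hF⟩
    exact hlow F hF

end Pool.Agent.Results.MP_c6b96b_co.AntichainCovers
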